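import Pool.Agent.MP_5c28a4_al.H13S.Base
import Pool.Agent.MP_5c28a4_al.H81S.Ded

/-!
Words and polynomials, and the annihilator polynomial.
-/

set_option autoImplicit false

namespace Pool.Agent.MP_5c28a4_al.H89S.StrA

open Polynomial

namespace WordA

variable {N M : Type} [Group N] [AddCommGroup M]

theorem lev_zero (σ : Representation ℤ N M) (z : N) : lev σ z 0 = 0 := by simp [lev]

theorem lev_add (σ : Representation ℤ N M) (z : N) (h k : ℤ →₀ ℤ) :
    lev σ z (h + k) = lev σ z h + lev σ z k :=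
  Finsupp.sum_add_index' (fun _ => zero_smul _ _) fun _ _ _ => add_smul _ _ _

theorem lev_neg (σ : Representation ℤ N M) (z : N) (h : ℤ →₀ ℤ) :
    lev σ z (-h) = -lev σ z h := by
  have := lev_add σ z h (-h)
  rw [add_neg_cancel, lev_zero] at this
  exact (neg_eq_of_add_eq_zero_right this.symm).symm

theorem lev_single (σ : Representation ℤ N M) (z : N) (a : ℤ) :
    lev σ z (Finsupp.single a 1) = σ (z ^ a) := by
  simp [lev]

theorem one (h : ℤ →₀ ℤ) (h0 : h ≠ 0) : ∃ g : ℤ[X], g ≠ 0 ∧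
    ∀ (N M : Type) [Group N] [AddCommGroup M] (σ : Representation ℤ N M) (z : N),
      ∃ F, aeval (σ z) g = lev σ z h * F := by
  obtain ⟨n, hn⟩ : ∃ n : ℕ, ∀ a ∈ h.support, 0 ≤ a + n := by
    refine ⟨h.support.sup Int.natAbs, fun a ha => ?_⟩
    have := Finset.le_sup (f := Int.natAbs) ha
    omega
  refine ⟨∑ a ∈ h.support, monomial (a + n).toNat (h a), fun hg => ?_,
    fun N M _ _ σ z => ⟨σ (z ^ n), ?_⟩⟩
  · obtain ⟨a, ha⟩ := Finsupp.support_nonempty_iff.2 h0
    have h1 := congrArg (fun q : ℤ[X] => q.coeff (a + n).toNat) hg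
    simp only [finsetSum_coeff, coeff_monomial, coeff_zero] at h1
    rw [Finset.sum_eq_single a, if_pos rfl] at h1
    · exact Finsupp.mem_support_iff.1 ha h1
    · intro b hb hba
      have := hn a ha
      have := hn b hb
      exact if_neg (by omega)
    · exact fun h2 => absurd ha h2
  · rw [map_sum, lev, Finsupp.sum, Finset.sum_mul]
    refine Finset.sum_congr rfl fun a ha => ?_
    rw [aeval_monomial, smul_mul_assoc, ← map_mul, ← map_pow, ← zpow_natCast, ← zpow_natCast,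
      Int.toNat_of_nonneg (hn a ha), zpow_add, Algebra.smul_def]

/-- divisors of the special polynomials -/
def dv : Submonoid ℤ[X] where
  carrier := {q | ∃ (m : ℤ) (k L e : ℕ), m ≠ 0 ∧ 0 < L ∧ q ∣ C m * X ^ k * (X ^ L - 1) ^ e}
  one_mem' := ⟨1, 0, 1, 0, one_ne_zero, one_pos, one_dvd _⟩
  mul_mem' := by
    rintro q q' ⟨m, k, L, e, h1, h2, h3⟩ ⟨m', k', L', e', h4, h5, h6⟩
    refine ⟨m * m', k + k', L * L', e + e', mul_ne_zero h1 h4, mul_pos h2 h5,
      (mul_dvd_mul h3 h6).trans ?_⟩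
    have a1 : (X ^ L - 1 : ℤ[X]) ∣ X ^ (L * L') - 1 := by
      rw [pow_mul]; exact sub_one_dvd_pow_sub_one _ _
    have a2 : (X ^ L' - 1 : ℤ[X]) ∣ X ^ (L * L') - 1 := by
      rw [pow_mul']; exact sub_one_dvd_pow_sub_one _ _
    have a3 := mul_dvd_mul_left (C (m * m') * X ^ (k + k'))
      (mul_dvd_mul (pow_dvd_pow_of_dvd a1 e) (pow_dvd_pow_of_dvd a2 e'))
    rw [← pow_add] at a3
    refine (dvd_of_eq ?_).trans a3
    rw [map_mul]
    ring

end WordA

open WordA

theorem word : XWord where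
  poly r w hw := by
    choose g g0 hg using fun k => one (ab (w k)) (hw k)
    refine ⟨∏ k, g k, Finset.prod_ne_zero_iff.2 fun k _ => g0 k, fun N M _ _ σ z k => ?_⟩
    obtain ⟨F, hF⟩ := hg k N M σ z
    rw [← Finset.mul_prod_erase _ _ (Finset.mem_univ k), map_mul, hF, mul_assoc]
    exact LinearMap.range_comp_le_range _ _
  val N M _ _ σ f H H₀ hH h z w y hy := by
    have hm := Ut3A.evz_mem hy (nz_of_normal hH z)
    induction w using FreeGroup.induction_on with
    | C1 => rw [map_one, h.one, Ut3A.ab_one, lev_zero, LinearMap.zero_apply]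
    | of a => rw [Ut3A.evz_of, h.conj _ _ hy, Ut3A.ab_of, lev_single]
    | inv_of a ih => rw [map_inv, h.inv (hm _), ih, Ut3A.ab_inv, lev_neg, LinearMap.neg_apply]
    | mul v w ih ih' =>
      rw [map_mul, h.add _ (hm _) _ (hm _), ih, ih', Ut3A.ab_mul, lev_add, LinearMap.add_apply]

theorem poly : XPoly := by
  intro g hg
  by_contra hc
  set I := Ideal.span {h : ℤ[X] | ∃ j : ℕ, 0 < j ∧ h = expand ℤ j g}
  obtain ⟨P, hP, hI, hd⟩ := I.exists_le_prime_disjoint dv (Set.disjoint_left.2 (by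
    rintro q hq ⟨m, k, L, e, h1, h2, c, h3⟩
    exact hc ⟨m, k, L, e, h1, h2, h3 ▸ I.mul_mem_right c hq⟩))
  have key : ∀ q ∈ dv, Ideal.Quotient.mk P q ≠ 0 := fun q hq h =>
    Set.disjoint_left.1 hd (Ideal.Quotient.eq_zero_iff_mem.1 h) hq
  set t := Ideal.Quotient.mk P X with ht
  have h1 : Function.Injective (algebraMap ℤ (ℤ[X] ⧸ P)) :=
    (injective_iff_map_eq_zero _).2 fun m hm => by
      by_contra h0
      refine key (C m) ⟨m, 0, 1, 0, h0, one_pos, by simp⟩ ?_
      simpa using hm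
  have h2 : t ≠ 0 := key X ⟨1, 1, 1, 0, one_ne_zero, one_pos, by simp⟩
  have h3 : ∀ a b : ℕ, a < b → t ^ (a + 1) ≠ t ^ (b + 1) := fun a b hab h => by
    refine key (X ^ (b - a) - 1) ⟨1, 0, b - a, 1, one_ne_zero, by omega, by simp⟩ ?_
    rw [map_sub, map_pow, map_one, sub_eq_zero]
    refine mul_left_cancel₀ (pow_ne_zero (a + 1) h2) ?_
    rw [← pow_add, mul_one, h]
    congr 1
    omega
  have h4 : Function.Injective fun a : ℕ => t ^ (a + 1) := fun a b h => by
    rcases lt_trichotomy a b with h' | h' | h'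
    · exact absurd h (h3 a b h')
    · exact h'
    · exact absurd h.symm (h3 b a h')
  refine Set.infinite_of_injective_forall_mem h4 (fun a => ?_) (g.rootSet_finite (ℤ[X] ⧸ P))
  refine mem_rootSet'.2 ⟨(Polynomial.map_ne_zero_iff h1).2 hg, ?_⟩
  have h5 : ∀ q : ℤ[X], aeval t q = Ideal.Quotient.mk P q := fun q => by
    rw [ht, ← Ideal.Quotient.mkₐ_eq_mk ℤ, aeval_algHom_apply, aeval_X_left_apply]
  rw [← expand_aeval, h5, Ideal.Quotient.eq_zero_iff_mem]
  exact hI (Ideal.subset_span ⟨a + 1, a.succ_pos, rfl⟩)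

end Pool.Agent.MP_5c28a4_al.H89S.StrA
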