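import Pool.Agent.MP_5c28a4_al.H89S.Spec

/-!
The lemma of Hall for finitely generated modules over virtually nilpotent groups.
Everything happens inside one ambient module with an action of the whole group.
-/

set_option autoImplicit false

namespace Pool.Agent.MP_5c28a4_al.H89S

namespace HallA

variable {Γ : Type} [Group Γ] {R : Type} [CommRing R] {M : Type} [AddCommGroup M] [Module R M]

/-- the stabiliser of a submodule -/
def stab (ρ : Representation R Γ M) (N : Submodule R M) : Subgroup Γ where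
  carrier := {g | ∀ y, y ∈ N ↔ ρ g y ∈ N}
  one_mem' := fun y => by simp
  mul_mem' := by
    intro a b ha hb y
    rw [map_mul, Module.End.mul_apply, ← ha, ← hb]
  inv_mem' := by
    intro a ha y
    rw [ha (ρ a⁻¹ y), Representation.self_inv_apply]

/-- the span of the orbit of a finite set -/
def sp (ρ : Representation R Γ M) (H : Subgroup Γ) (T : Finset M) : Submodule R M :=
  Submodule.span R {x | ∃ g ∈ H, ∃ t ∈ T, x = ρ g t}

variable {ρ : Representation R Γ M}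

theorem app {H : Subgroup Γ} {N : Submodule R M} (h : H ≤ stab ρ N) {g : Γ} (hg : g ∈ H) {y : M}
    (hy : y ∈ N) : ρ g y ∈ N := (h hg y).1 hy

theorem mem_stab {N : Submodule R M} {g : Γ} (h : ∀ y ∈ N, ρ g y ∈ N)
    (h' : ∀ y ∈ N, ρ g⁻¹ y ∈ N) : g ∈ stab ρ N := fun y =>
  ⟨h y, fun hy => by simpa using h' _ hy⟩

theorem le_stab {H : Subgroup Γ} {N : Submodule R M} (h : ∀ g ∈ H, ∀ y ∈ N, ρ g y ∈ N) :
    H ≤ stab ρ N := fun g hg => mem_stab (h g hg) (h _ (H.inv_mem hg))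

theorem mem_sp {H : Subgroup Γ} {T : Finset M} {g : Γ} (hg : g ∈ H) {t : M} (ht : t ∈ T) :
    ρ g t ∈ sp ρ H T := Submodule.subset_span ⟨g, hg, t, ht, rfl⟩

theorem mem_sp' {H : Subgroup Γ} {T : Finset M} {t : M} (ht : t ∈ T) : t ∈ sp ρ H T := by
  simpa using mem_sp (ρ := ρ) H.one_mem ht

theorem sp_le {H : Subgroup Γ} {T : Finset M} {N : Submodule R M}
    (h : ∀ g ∈ H, ∀ t ∈ T, ρ g t ∈ N) : sp ρ H T ≤ N := by
  refine Submodule.span_le.2 ?_
  rintro _ ⟨g, hg, t, ht, rfl⟩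
  exact h g hg t ht

theorem sp_inv (H : Subgroup Γ) (T : Finset M) : H ≤ stab ρ (sp ρ H T) := by
  refine le_stab fun g hg y hy => ?_
  have : sp ρ H T ≤ (sp ρ H T).comap (ρ g) := sp_le fun a ha t ht => by
    rw [Submodule.mem_comap, ← Module.End.mul_apply, ← map_mul]
    exact mem_sp (H.mul_mem hg ha) ht
  exact this hy

/-- the ascending chain condition for the invariant submodules of the spans -/
def Acc (ρ : Representation R Γ M) (H : Subgroup Γ) : Prop := ∀ (T : Finset M)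
  (c : ℕ → Submodule R M), Monotone c → (∀ n, H ≤ stab ρ (c n)) → (∀ n, c n ≤ sp ρ H T) →
  ∃ n, ∀ k, n ≤ k → c k = c n

/-- `S` has no `π`-torsion modulo `K`, and is torsion modulo `K` if it is divisible -/
def Nice (π : R) (S K : Submodule R M) : Prop := (∀ y ∈ S, π • y ∈ K → y ∈ K) ∧
  ((∀ y ∈ S, ∃ z ∈ S, y - π • z ∈ K) → ∀ y ∈ S, ∃ a : R, a ≠ 0 ∧ a • y ∈ K)

/-- the conclusion of the lemma, in relative form -/
def Hl (ρ : Representation R Γ M) (H : Subgroup Γ) : Prop := ∀ (T : Finset M)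
  (K : Submodule R M), H ≤ stab ρ K → ∃ f : R, f ≠ 0 ∧ ∀ π : R, Prime π → ¬ π ∣ f →
    Nice π (sp ρ H T) K

/-- the elements that are torsion modulo `K` -/
def tors [IsDomain R] (K : Submodule R M) : Submodule R M where
  carrier := {y | ∃ a : R, a ≠ 0 ∧ a • y ∈ K}
  zero_mem' := ⟨1, one_ne_zero, by simp⟩
  add_mem' := by
    rintro x y ⟨a, ha, hx⟩ ⟨b, hb, hy⟩
    refine ⟨a * b, mul_ne_zero ha hb, ?_⟩
    rw [smul_add]
    refine K.add_mem ?_ ?_
    · rw [mul_comm, mul_smul]; exact K.smul_mem _ hx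
    · rw [mul_smul]; exact K.smul_mem _ hy
  smul_mem' := by
    rintro c x ⟨a, ha, hx⟩
    exact ⟨a, ha, by rw [smul_comm]; exact K.smul_mem _ hx⟩

/-! ### the trivial group -/

theorem sp_bot (T : Finset M) : sp ρ ⊥ T = Submodule.span R (T : Set M) := by
  unfold sp
  congr 1
  ext x
  constructor
  · rintro ⟨g, hg, t, ht, rfl⟩
    rw [Subgroup.mem_bot.1 hg]
    simpa using ht
  · intro hx
    exact ⟨1, Subgroup.one_mem _, x, hx, by simp⟩

theorem acc_bot [IsNoetherianRing R] : Acc ρ ⊥ := by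
  intro T c hc _ hle
  rw [sp_bot] at hle
  have : IsNoetherian R (Submodule.span R (T : Set M)) :=
    isNoetherian_span_of_finite R T.finite_toSet
  obtain ⟨n, hn⟩ := monotone_stabilizes_iff_noetherian.2 this
    ⟨fun n => (c n).comap (Submodule.span R (T : Set M)).subtype,
      fun a b hab => Submodule.comap_mono (hc hab)⟩
  refine ⟨n, fun k hk => ?_⟩
  have := congrArg (Submodule.map (Submodule.span R (T : Set M)).subtype) (hn k hk)
  simp only [OrderHom.coe_mk, Submodule.map_comap_subtype] at this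
  rw [inf_eq_right.2 (hle n), inf_eq_right.2 (hle k)] at this
  exact this.symm

theorem hl_bot [IsDomain R] [IsPrincipalIdealRing R] : Hl ρ ⊥ := by
  classical
  intro T K _
  rw [sp_bot]
  set S := Submodule.span R (T : Set M) with hS
  have hfg : S.FG := ⟨T, rfl⟩
  have hW : (S ⊓ tors K).FG := Submodule.FG.of_le hfg inf_le_left
  obtain ⟨U, hU⟩ := hW
  have hU' : ∀ u ∈ U, ∃ a : R, a ≠ 0 ∧ a • u ∈ K := fun u hu =>
    ((hU ▸ Submodule.subset_span hu : u ∈ S ⊓ tors K)).2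
  choose! a ha haK using hU'
  have hf : ∀ y ∈ S ⊓ tors K, (∏ u ∈ U, a u) • y ∈ K := by
    intro y hy
    rw [← hU] at hy
    have : Submodule.span R (U : Set M) ≤
        K.comap ((∏ u ∈ U, a u) • (LinearMap.id : M →ₗ[R] M)) := by
      refine Submodule.span_le.2 fun u hu => ?_
      obtain ⟨b, hb⟩ := Finset.dvd_prod_of_mem a (show u ∈ U from hu)
      show (∏ u ∈ U, a u) • u ∈ K
      rw [hb, mul_comm, mul_smul]
      exact K.smul_mem _ (haK u hu)
    exact this hy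
  refine ⟨∏ u ∈ U, a u, Finset.prod_ne_zero_iff.2 ha, fun π hπ hd => ⟨fun y hy hπy => ?_, ?_⟩⟩
  · obtain ⟨u, v, huv⟩ := (hπ.irreducible.coprime_iff_not_dvd).2 hd
    have h1 := hf y ⟨hy, π, hπ.ne_zero, hπy⟩
    have : y = u • (π • y) + v • ((∏ u ∈ U, a u) • y) := by
      rw [← mul_smul, ← mul_smul, ← add_smul, huv, one_smul]
    rw [this]
    exact K.add_mem (K.smul_mem _ hπy) (K.smul_mem _ h1)
  · intro hdiv y hy
    have hle : S ≤ K ⊔ (Ideal.span {π}) • S := by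
      intro w hw
      obtain ⟨z, hz, hzK⟩ := hdiv w hw
      have : w = (w - π • z) + π • z := by abel
      rw [this]
      exact Submodule.add_mem_sup hzK
        (Submodule.smul_mem_smul (Ideal.mem_span_singleton_self π) hz)
    obtain ⟨r, hr, hrS⟩ :=
      Submodule.exists_sub_one_mem_and_smul_le_of_fg_of_le_sup hfg le_rfl hle
    refine ⟨r, ?_, hrS (Submodule.smul_mem_pointwise_smul y r S hy)⟩
    rintro rfl
    rw [Ideal.mem_span_singleton, zero_sub, dvd_neg] at hr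
    exact hπ.not_dvd_one hr

/-! ### finite extensions -/

theorem reps {H H' : Subgroup Γ} (hi : H.relIndex H' ≠ 0) : ∃ U : Finset Γ,
    (∀ u ∈ U, u ∈ H') ∧ ∀ g ∈ H', ∃ h ∈ H, ∃ u ∈ U, g = h * u := by
  classical
  have : (H.subgroupOf H').FiniteIndex := ⟨hi⟩
  have : Fintype (H' ⧸ H.subgroupOf H') := Fintype.ofFinite _
  refine ⟨Finset.image (fun q : H' ⧸ H.subgroupOf H' => ((q.out : H') : Γ)⁻¹) Finset.univ,
    fun u hu => ?_, fun g hg => ?_⟩
  · obtain ⟨q, _, rfl⟩ := Finset.mem_image.1 hu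
    exact H'.inv_mem (q.out : H').2
  · obtain ⟨h, hh⟩ := QuotientGroup.mk_out_eq_mul (H.subgroupOf H') (⟨g⁻¹, H'.inv_mem hg⟩ : H')
    refine ⟨((h : H') : Γ), Subgroup.mem_subgroupOf.1 h.2, _,
      Finset.mem_image_of_mem _ (Finset.mem_univ
        (QuotientGroup.mk (⟨g⁻¹, H'.inv_mem hg⟩ : H'))), ?_⟩
    rw [hh]
    simp

theorem sp_fin {H H' : Subgroup Γ} (hle : H ≤ H') (hi : H.relIndex H' ≠ 0) (T : Finset M) :
    ∃ T' : Finset M, sp ρ H' T = sp ρ H T' := by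
  classical
  obtain ⟨U, hU, hU'⟩ := reps hi
  refine ⟨Finset.image (fun p : Γ × M => ρ p.1 p.2) (U ×ˢ T),
    le_antisymm (sp_le fun g hg t ht => ?_) (sp_le fun g hg t ht => ?_)⟩
  · obtain ⟨h, hh, u, hu, rfl⟩ := hU' g hg
    rw [map_mul, Module.End.mul_apply]
    exact mem_sp hh (Finset.mem_image.2 ⟨(u, t), Finset.mem_product.2 ⟨hu, ht⟩, rfl⟩)
  · obtain ⟨p, hp, rfl⟩ := Finset.mem_image.1 ht
    exact app (sp_inv H' T) (hle hg)
      (mem_sp (hU _ (Finset.mem_product.1 hp).1) (Finset.mem_product.1 hp).2)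

theorem acc_fin {H H' : Subgroup Γ} (hle : H ≤ H') (hi : H.relIndex H' ≠ 0) (h : Acc ρ H) :
    Acc ρ H' := by
  intro T c hc hinv hsp
  obtain ⟨T', hT'⟩ := sp_fin (ρ := ρ) hle hi T
  exact h T' c hc (fun n => hle.trans (hinv n)) (fun n => hT' ▸ hsp n)

theorem hl_fin {H H' : Subgroup Γ} (hle : H ≤ H') (hi : H.relIndex H' ≠ 0) (h : Hl ρ H) :
    Hl ρ H' := by
  intro T K hK
  obtain ⟨T', hT'⟩ := sp_fin (ρ := ρ) hle hi T
  rw [hT']
  exact h T' K (hle.trans hK)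

/-! ### cyclic extensions -/

/-- `L + S + x S + ... + x ^ (n - 1) S` -/
def D (ρ : Representation R Γ M) (x : Γ) (S L : Submodule R M) : ℕ → Submodule R M
  | 0 => L
  | n + 1 => D ρ x S L n ⊔ S.map (ρ (x ^ n))

/-- leading coefficients -/
def J (ρ : Representation R Γ M) (x : Γ) (S L : Submodule R M) (n : ℕ) : Submodule R M :=
  S ⊓ (D ρ x S L n).comap (ρ (x ^ n))

variable {x : Γ} {S L L' : Submodule R M} {H : Subgroup Γ}

theorem mem_D {n : ℕ} {y : M} :
    y ∈ D ρ x S L (n + 1) ↔ ∃ m ∈ S, y - ρ (x ^ n) m ∈ D ρ x S L n := by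
  constructor
  · intro h
    obtain ⟨d, hd, _, ⟨m, hm, rfl⟩, rfl⟩ := Submodule.mem_sup.1 h
    exact ⟨m, hm, by simpa using hd⟩
  · rintro ⟨m, hm, h⟩
    exact Submodule.mem_sup.2 ⟨_, h, _, ⟨m, hm, rfl⟩, by abel⟩

theorem D_mono : Monotone (D ρ x S L) := monotone_nat_of_le_succ fun _ => le_sup_left

theorem le_D (n : ℕ) : L ≤ D ρ x S L n := D_mono (ρ := ρ) (x := x) (S := S) (Nat.zero_le n)

theorem D_le (h : L ≤ L') : ∀ n, D ρ x S L n ≤ D ρ x S L' n
  | 0 => h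
  | n + 1 => sup_le_sup_right (D_le h n) _

theorem pow_D {m : M} (hm : m ∈ S) (n : ℕ) : ρ (x ^ n) m ∈ D ρ x S L (n + 1) :=
  mem_D.2 ⟨m, hm, by simp⟩

theorem D_x (hL : x ∈ stab ρ L) : ∀ n, ∀ y ∈ D ρ x S L n, ρ x y ∈ D ρ x S L (n + 1)
  | 0, y, hy => le_D 1 ((hL y).1 hy)
  | n + 1, y, hy => by
    obtain ⟨m, hm, h⟩ := mem_D.1 hy
    refine mem_D.2 ⟨m, hm, ?_⟩
    have := D_x hL n _ h
    rwa [map_sub, ← Module.End.mul_apply (ρ x) (ρ (x ^ n)), ← map_mul, ← pow_succ'] at this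

theorem D_pow (hL : x ∈ stab ρ L) {n : ℕ} {y : M} (hy : y ∈ D ρ x S L n) :
    ∀ k, ρ (x ^ k) y ∈ D ρ x S L (n + k)
  | 0 => by simpa using hy
  | k + 1 => by
    rw [pow_succ', map_mul, Module.End.mul_apply]
    exact D_x hL _ _ (D_pow hL hy k)

theorem nz_pow (hx : Nz x H) : ∀ n : ℕ, Nz (x ^ n) H
  | 0 => fun h hh => by simpa using hh
  | n + 1 => fun h hh => by
    constructor
    · have := (hx _ (nz_pow hx n h hh).1).1
      rw [pow_succ']
      convert this using 1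
      group
    · have := (hx _ (nz_pow hx n h hh).2).2
      rw [pow_succ]
      convert this using 1
      group

theorem comap_inv {z : Γ} (hz : ∀ h ∈ H, z * h * z⁻¹ ∈ H) {N : Submodule R M}
    (hN : H ≤ stab ρ N) : H ≤ stab ρ (N.comap (ρ z)) := by
  refine le_stab fun g hg y hy => ?_
  have e : ρ z (ρ g y) = ρ (z * g * z⁻¹) (ρ z y) := by
    simp only [← Module.End.mul_apply, ← map_mul]
    congr 2
    group
  rw [Submodule.mem_comap, e]
  exact app hN (hz g hg) hy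

theorem D_inv (hx : Nz x H) (hS : H ≤ stab ρ S) (hL : H ≤ stab ρ L) :
    ∀ n, H ≤ stab ρ (D ρ x S L n)
  | 0 => hL
  | n + 1 => by
    refine le_stab fun g hg y hy => ?_
    obtain ⟨m, hm, h⟩ := mem_D.1 hy
    refine mem_D.2 ⟨ρ ((x ^ n)⁻¹ * g * x ^ n) m, app hS (nz_pow hx n g hg).2 hm, ?_⟩
    have e : ρ (x ^ n) (ρ ((x ^ n)⁻¹ * g * x ^ n) m) = ρ g (ρ (x ^ n) m) := by
      simp only [← Module.End.mul_apply, ← map_mul]
      congr 2
      group
    rw [e, ← map_sub]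
    exact app (D_inv hx hS hL n) hg h

theorem J_inv (hx : Nz x H) (hS : H ≤ stab ρ S) (hL : H ≤ stab ρ L) (n : ℕ) :
    H ≤ stab ρ (J ρ x S L n) := le_stab fun _ hg _ hy =>
  ⟨app hS hg hy.1, app (comap_inv (fun h hh => (nz_pow hx n h hh).1) (D_inv hx hS hL n)) hg hy.2⟩

theorem J_le (h : L ≤ L') (n : ℕ) : J ρ x S L n ≤ J ρ x S L' n := fun _ hy =>
  ⟨hy.1, D_le h n hy.2⟩

theorem J_mono (hL : x ∈ stab ρ L) : Monotone (J ρ x S L) :=
  monotone_nat_of_le_succ fun n y hy => ⟨hy.1, by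
    show ρ (x ^ (n + 1)) y ∈ D ρ x S L (n + 1)
    rw [pow_succ', map_mul, Module.End.mul_apply]
    exact D_x hL _ _ hy.2⟩

theorem cover (hx : Nz x H) (T : Finset M) (hL : H ⊔ Subgroup.zpowers x ≤ stab ρ L) {y : M}
    (hy : y ∈ sp ρ (H ⊔ Subgroup.zpowers x) T) :
    ∃ k n : ℕ, ρ (x ^ k) y ∈ D ρ x (sp ρ H T) L n := by
  have hxL : x ∈ stab ρ L := hL (Subgroup.mem_sup_right (Subgroup.mem_zpowers x))
  have hHL : H ≤ stab ρ L := le_sup_left.trans hL
  let U : Submodule R M :=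
    { carrier := {y | ∃ k n : ℕ, ρ (x ^ k) y ∈ D ρ x (sp ρ H T) L n}
      zero_mem' := ⟨0, 0, by simp⟩
      add_mem' := by
        rintro a b ⟨k, n, ha⟩ ⟨k', n', hb⟩
        refine ⟨k + k', n + k' + (n' + k), ?_⟩
        rw [map_add]
        refine Submodule.add_mem _ ?_ ?_
        · have := D_pow hxL ha k'
          rw [← Module.End.mul_apply, ← map_mul, ← pow_add, add_comm k' k] at this
          exact D_mono (Nat.le_add_right _ _) this
        · have := D_pow hxL hb k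
          rw [← Module.End.mul_apply, ← map_mul, ← pow_add] at this
          exact D_mono (Nat.le_add_left _ _) this
      smul_mem' := by
        rintro c a ⟨k, n, ha⟩
        exact ⟨k, n, by rw [map_smul]; exact Submodule.smul_mem _ _ ha⟩ }
  have hU : H ⊔ Subgroup.zpowers x ≤ stab ρ U := by
    refine sup_le (le_stab ?_) (Subgroup.zpowers_le.2 (mem_stab ?_ ?_))
    · rintro g hg a ⟨k, n, ha⟩
      exact ⟨k, n, app (comap_inv (fun h hh => (nz_pow hx k h hh).1)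
        (D_inv hx (sp_inv H T) hHL n)) hg ha⟩
    · rintro a ⟨k, n, ha⟩
      refine ⟨k, n + 1, ?_⟩
      have := D_x hxL _ _ ha
      rwa [← Module.End.mul_apply, ← map_mul, ← pow_succ', pow_succ, map_mul,
        Module.End.mul_apply] at this
    · rintro a ⟨k, n, ha⟩
      refine ⟨k + 1, n, ?_⟩
      rwa [pow_succ, map_mul, Module.End.mul_apply, Representation.self_inv_apply]
  have : sp ρ (H ⊔ Subgroup.zpowers x) T ≤ U := sp_le fun g hg t ht =>
    app hU hg ⟨0, 1, pow_D (mem_sp' ht) 0⟩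
  exact this hy

theorem le_of_J (hle : L ≤ L') (hJ : ∀ n, J ρ x S L' n ≤ J ρ x S L n) :
    ∀ n, ∀ y ∈ L', y ∈ D ρ x S L n → y ∈ L
  | 0, _, _, h => h
  | n + 1, y, hy, h => by
    obtain ⟨m, hm, h⟩ := mem_D.1 h
    have h1 : ρ (x ^ n) m ∈ D ρ x S L' n := by
      have := Submodule.sub_mem _ (le_D n hy) (D_le hle n h)
      simpa using this
    have h2 : ρ (x ^ n) m ∈ D ρ x S L n := (hJ n ⟨hm, h1⟩).2
    refine le_of_J hle hJ n y hy ?_
    simpa using Submodule.add_mem _ h h2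

theorem acc_cyc (hx : Nz x H) (h : Acc ρ H) : Acc ρ (H ⊔ Subgroup.zpowers x) := by
  intro T c hc hinv hsp
  have hxc : ∀ k, x ∈ stab ρ (c k) := fun k =>
    hinv k (Subgroup.mem_sup_right (Subgroup.mem_zpowers x))
  have hJ : ∀ k n, H ≤ stab ρ (J ρ x (sp ρ H T) (c k) n) := fun k n =>
    J_inv hx (sp_inv H T) (le_sup_left.trans (hinv k)) n
  have hmono : ∀ {k k' n n' : ℕ}, k ≤ k' → n ≤ n' →
      J ρ x (sp ρ H T) (c k) n ≤ J ρ x (sp ρ H T) (c k') n' := fun hk hn =>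
    (J_le (hc hk) _).trans (J_mono (hxc _) hn)
  obtain ⟨k₀, hk₀⟩ := h T (fun k => J ρ x (sp ρ H T) (c k) k) (fun a b hab => hmono hab hab)
    (fun k => hJ k k) (fun _ => inf_le_left)
  have hn : ∀ n, ∃ k₁, ∀ k, k₁ ≤ k →
      J ρ x (sp ρ H T) (c k) n = J ρ x (sp ρ H T) (c k₁) n := fun n =>
    h T (fun k => J ρ x (sp ρ H T) (c k) n) (fun a b hab => hmono hab le_rfl)
      (fun k => hJ k n) (fun _ => inf_le_left)
  choose k₁ hk₁ using hn
  refine ⟨max k₀ ((Finset.range k₀).sup k₁), fun k hk => le_antisymm ?_ (hc hk)⟩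
  set N := max k₀ ((Finset.range k₀).sup k₁) with hN
  have key : ∀ n, J ρ x (sp ρ H T) (c k) n ≤ J ρ x (sp ρ H T) (c N) n := by
    intro n
    rcases lt_or_ge n k₀ with hlt | hge
    · have h1 : k₁ n ≤ N := (Finset.le_sup (f := k₁) (Finset.mem_range.2 hlt)).trans
        (le_max_right _ _)
      rw [hk₁ n k (h1.trans hk), hk₁ n N h1]
    · calc J ρ x (sp ρ H T) (c k) n ≤ J ρ x (sp ρ H T) (c (max k n)) (max k n) :=
            hmono (le_max_left _ _) (le_max_right _ _)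
        _ = J ρ x (sp ρ H T) (c k₀) k₀ := hk₀ _ (hge.trans (le_max_right _ _))
        _ ≤ _ := hmono (le_max_left _ _) hge
  intro y hy
  obtain ⟨a, n, hy'⟩ := cover hx T (hinv N) (hsp k hy)
  have hxa : ∀ j, x ^ a ∈ stab ρ (c j) := fun j => Subgroup.pow_mem _ (hxc j) a
  exact (hxa N y).2 (le_of_J (hc hk) key n _ ((hxa k y).1 hy) hy')

theorem pure_D {π : R} (hJ : ∀ n, ∀ y ∈ S, π • y ∈ J ρ x S L n → y ∈ J ρ x S L n) (j : ℕ) :
    ∀ n, ∀ y ∈ D ρ x S L (j + n), π • y ∈ D ρ x S L j → y ∈ D ρ x S L j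
  | 0, _, hy, _ => hy
  | n + 1, y, hy, hπ => by
    obtain ⟨m, hm, h⟩ := mem_D.1 (show y ∈ D ρ x S L (j + n + 1) from hy)
    have h1 : ρ (x ^ (j + n)) (π • m) ∈ D ρ x S L (j + n) := by
      have := Submodule.sub_mem _ (D_mono (Nat.le_add_right j n) hπ)
        (Submodule.smul_mem _ π h)
      rw [smul_sub, sub_sub_cancel] at this
      rwa [map_smul]
    have h2 : ρ (x ^ (j + n)) m ∈ D ρ x S L (j + n) :=
      (hJ _ m hm ⟨S.smul_mem π hm, h1⟩).2
    refine pure_D hJ j n y ?_ hπ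
    simpa using Submodule.add_mem _ h h2

theorem mem_E {y : M} : y ∈ ⨆ n, D ρ x S L n ↔ ∃ n, y ∈ D ρ x S L n :=
  Submodule.mem_iSup_of_directed _ (D_mono (ρ := ρ) (x := x) (S := S) (L := L)).directed_le

theorem D_split (hL : x ∈ stab ρ L) :
    ∀ n, D ρ x S L n ≤ S ⊔ (⨆ n, D ρ x S L n).comap (ρ x⁻¹)
  | 0 => fun y hy => Submodule.mem_sup_right
      (mem_E.2 ⟨0, ((Subgroup.inv_mem _ hL) y).1 hy⟩)
  | n + 1 => by
    refine sup_le (D_split hL n) ?_
    rintro _ ⟨m, hm, rfl⟩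
    cases n with
    | zero => exact Submodule.mem_sup_left (by simpa using hm)
    | succ n =>
      refine Submodule.mem_sup_right (mem_E.2 ⟨n + 1, ?_⟩)
      rw [pow_succ', map_mul, Module.End.mul_apply, Representation.inv_self_apply]
      exact pow_D hm n

theorem pure_E {π : R} (hL : x ∈ stab ρ L)
    (hK : ∀ y ∈ S, π • y ∈ (⨆ n, D ρ x S L n).comap (ρ x⁻¹) →
      y ∈ (⨆ n, D ρ x S L n).comap (ρ x⁻¹)) :
    ∀ k : ℕ, ∀ y, ρ (x ^ k) y ∈ ⨆ n, D ρ x S L n → π • y ∈ ⨆ n, D ρ x S L n →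
      y ∈ ⨆ n, D ρ x S L n
  | 0, y, h, _ => by simpa using h
  | k + 1, y, h, hπ => by
    have h1 : ρ x y ∈ ⨆ n, D ρ x S L n := by
      refine pure_E hL hK k _ ?_ ?_
      · rwa [pow_succ, map_mul, Module.End.mul_apply] at h
      · obtain ⟨n, hn⟩ := mem_E.1 hπ
        rw [← map_smul]
        exact mem_E.2 ⟨n + 1, D_x hL _ _ hn⟩
    obtain ⟨n, hn⟩ := mem_E.1 h1
    obtain ⟨m, hm, w, hw, e⟩ := Submodule.mem_sup.1 (D_split hL n hn)
    have h2 : π • m ∈ (⨆ n, D ρ x S L n).comap (ρ x⁻¹) := by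
      have e' : π • m = ρ x (π • y) - π • w := by
        rw [map_smul, ← e, smul_add]; abel
      rw [e']
      refine Submodule.sub_mem _ ?_ (Submodule.smul_mem _ _ hw)
      rwa [Submodule.mem_comap, Representation.inv_self_apply]
    have h3 := Submodule.add_mem _ (hK m hm h2) hw
    rwa [e, Submodule.mem_comap, Representation.inv_self_apply] at h3

theorem hl_cyc [IsDomain R] (hx : Nz x H) (hA : Acc ρ H) (h : Hl ρ H) :
    Hl ρ (H ⊔ Subgroup.zpowers x) := by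
  intro T K hK
  have hxK : x ∈ stab ρ K := hK (Subgroup.mem_sup_right (Subgroup.mem_zpowers x))
  have hHK : H ≤ stab ρ K := le_sup_left.trans hK
  set S := sp ρ H T with hS
  have hSi : H ≤ stab ρ S := sp_inv H T
  obtain ⟨n₀, hn₀⟩ := hA T (J ρ x S K) (J_mono hxK) (J_inv hx hSi hHK) (fun _ => inf_le_left)
  choose f hf0 hf using fun n => h T (J ρ x S K n) (J_inv hx hSi hHK n)
  have hE : H ≤ stab ρ (⨆ n, D ρ x S K n) := le_stab fun g hg y hy => by
    obtain ⟨n, hn⟩ := mem_E.1 hy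
    exact mem_E.2 ⟨n, app (D_inv hx hSi hHK n) hg hn⟩
  obtain ⟨e, he0, he⟩ := h T ((⨆ n, D ρ x S K n).comap (ρ x⁻¹))
    (comap_inv (fun g hg => by simpa using (hx g hg).2) hE)
  refine ⟨e * ∏ n ∈ Finset.range (n₀ + 1), f n,
    mul_ne_zero he0 (Finset.prod_ne_zero_iff.2 fun n _ => hf0 n), fun π hπ hd => ?_⟩
  have he' := he π hπ fun hh => hd (hh.mul_right _)
  have hf1 : ∀ n, n ≤ n₀ → Nice π S (J ρ x S K n) := fun n hn => hf n π hπ fun hh =>
    hd ((hh.trans (Finset.dvd_prod_of_mem f (Finset.mem_range.2 (by omega)))).mul_left _)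
  have hf' : ∀ n, Nice π S (J ρ x S K n) := fun n => by
    rcases le_total n n₀ with hn | hn
    · exact hf1 n hn
    · rw [hn₀ n hn]; exact hf1 n₀ le_rfl
  have hP := pure_D (ρ := ρ) (x := x) (S := S) (L := K) (π := π) fun n => (hf' n).1
  refine ⟨fun y hy hπy => ?_, fun hdiv => ?_⟩
  · obtain ⟨k, n, hk⟩ := cover hx T hK hy
    have hxk : x ^ k ∈ stab ρ K := Subgroup.pow_mem _ hxK k
    refine (hxk y).2 (hP 0 n _ (by simpa using hk) ?_)
    rw [← map_smul]
    exact (hxk _).1 hπy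
  · have hSle : S ≤ sp ρ (H ⊔ Subgroup.zpowers x) T := sp_le fun g hg t ht =>
      mem_sp (Subgroup.mem_sup_left hg) ht
    have hdiv0 : ∀ y ∈ S, ∃ z ∈ S, y - π • z ∈ J ρ x S K 0 := by
      intro y hy
      obtain ⟨z, hz, hzK⟩ := hdiv y (hSle hy)
      have h1 : π • z ∈ D ρ x S K 1 := by
        have := Submodule.sub_mem _ (pow_D (ρ := ρ) (x := x) (L := K) hy 0) (le_D 1 hzK)
        simpa using this
      obtain ⟨k, n, hk⟩ := cover hx T hK hz
      obtain ⟨n', hn'⟩ := mem_E.1 (pure_E hxK he'.1 k z (mem_E.2 ⟨n, hk⟩) (mem_E.2 ⟨1, h1⟩))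
      obtain ⟨m, hm, hzm⟩ := mem_D.1 (hP 1 n' z (D_mono (Nat.le_add_left _ _) hn') h1)
      refine ⟨m, hm, S.sub_mem hy (S.smul_mem π hm), ?_⟩
      have hzm' : z - m ∈ K := by simpa [D] using hzm
      have := K.add_mem hzK (K.smul_mem π hzm')
      rw [smul_sub, sub_add_sub_cancel] at this
      simpa [D] using this
    have htor := (hf' 0).2 hdiv0
    have : sp ρ (H ⊔ Subgroup.zpowers x) T ≤ tors K := sp_le fun g hg t ht => by
      obtain ⟨a, ha, hat⟩ := htor t (mem_sp' ht)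
      have hat' : a • t ∈ K := by simpa [D] using hat.2
      exact ⟨a, ha, by rw [← map_smul]; exact app hK hg hat'⟩
    exact fun y hy => this hy

end HallA

open HallA in
theorem hall : BVn → SHall := by
  intro B Γ _ hfg hvn R _ _ _ M _ _ ρ T hT
  have h := B.ind Γ hfg hvn (fun H => Acc ρ H ∧ Hl ρ H) ⟨acc_bot, hl_bot⟩
    (fun H H' hle hi h => ⟨acc_fin hle hi h.1, hl_fin hle hi h.2⟩)
    (fun H t ht _ h => ⟨acc_cyc ht h.1, hl_cyc ht h.1 h.2⟩)
  obtain ⟨f, hf0, hf⟩ := h.2 T ⊥ (le_stab fun g _ y hy => by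
    rw [(Submodule.mem_bot R).1 hy, map_zero]; exact Submodule.zero_mem _)
  have hsp : sp ρ ⊤ T = ⊤ := by
    rw [← hT]
    unfold sp
    congr 1
    ext y
    simp
  refine ⟨f, hf0, fun π hπ hd hdiv y => ?_⟩
  have := (hf π hπ hd).2 (fun y _ => by
    obtain ⟨z, hz⟩ := hdiv y
    exact ⟨z, hsp ▸ Submodule.mem_top, by rw [hz]; simp⟩) y (hsp ▸ Submodule.mem_top)
  simpa using this

end Pool.Agent.MP_5c28a4_al.H89S
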